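import Mathlib
import Pool.Agent.H593.U.Fin2

/-!
# The circle problem for all centres at once, for almost all radii

`P a b R` is the number of integer points in the closed disc of centre `(a, b)` and radius `R`, minus
`π R²`. We bound the measure of the set of the radii `R` for which `|P a b R| > V √R` for at least one
centre, and the number of unit intervals that contain such a radius.

Outline. The Fourier series of `P a b R` in the centre `(a, b)` is a sum over lattice points `k` of
`|k|^{-3/2} e(k . (a, b) ± R |k|)`. The supremum over the centre of the part with `|k| ~ K` is bounded by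
the fourth moment over the centre (factor `K²`), and the mean value over `R` of the fourth moments is an
energy of the lattice points on the cone. This energy is bounded by `K^{4+ε}` in
`Pool.Agent.H593.U.SB5.HB_all`: an induction on the exponent which passes, by Poisson summation and the
geometry of nearly concyclic lattice points, from the energy to the fourth moment of the number of
lattice points in thin annuli with random centre and radius, and back.
-/

open MeasureTheory Set
open Pool.Agent.H593.U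
open scoped ENNReal

namespace Pool.Agent.H593.Old.AllCentresAlmostAllRadii

/-- one parity class of integers -/
private lemma parity_class {C X H V ε : ℝ}
    (h : ∀ T : Finset ℝ, (∀ r ∈ T, X ≤ r ∧ r ≤ X + (H + 1) ∧ ∃ a : ℝ × ℝ, V * √r < |Pa a r|) →
      (∀ r ∈ T, ∀ s ∈ T, r ≠ s → min 1 (V / √X) ≤ |r - s|) →
      (T.card : ℝ) ≤ C * (X ^ ε * (H + 1 + √X) / V ^ 4 * (1 + √X / V)))
    (F : Finset ℕ)
    (hF : ∀ n ∈ F, X ≤ n ∧ (n : ℝ) ≤ X + H ∧ ∃ R : ℝ, n ≤ R ∧ R ≤ n + 1 ∧ ∃ a : ℝ × ℝ, V * √R < |Pa a R|)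
    (hsep : ∀ n ∈ F, ∀ m ∈ F, n < m → n + 2 ≤ m) :
    (F.card : ℝ) ≤ C * (X ^ ε * (H + 1 + √X) / V ^ 4 * (1 + √X / V)) := by
  have hex : ∀ n : ℕ, n ∈ F → ∃ R : ℝ, n ≤ R ∧ R ≤ n + 1 ∧ ∃ a : ℝ × ℝ, V * √R < |Pa a R| :=
    fun n hn => (hF n hn).2.2
  choose! r hr using hex
  have hgap : ∀ n ∈ F, ∀ m ∈ F, n < m → r n + 1 ≤ r m := by
    intro n hn m hm hnm
    have h1 := (hr n hn).2.1
    have h2 := (hr m hm).1
    have h3 : ((n : ℝ) + 2) ≤ m := by exact_mod_cast hsep n hn m hm hnm
    linarith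
  have hinj : Set.InjOn r F := by
    intro n hn m hm hnm
    by_contra hne
    rcases lt_or_gt_of_ne hne with h1 | h1
    · have := hgap n hn m hm h1; linarith
    · have := hgap m hm n hn h1; linarith
  have hk := h (F.image r) (by
    intro x hx
    obtain ⟨n, hn, rfl⟩ := Finset.mem_image.mp hx
    obtain ⟨k1, k2, -⟩ := hF n hn
    obtain ⟨k3, k4, k5⟩ := hr n hn
    exact ⟨by linarith, by linarith, k5⟩) (by
    intro x hx y hy hxy
    obtain ⟨n, hn, rfl⟩ := Finset.mem_image.mp hx
    obtain ⟨m, hm, rfl⟩ := Finset.mem_image.mp hy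
    have hne : n ≠ m := fun e => hxy (by rw [e])
    refine (min_le_left _ _).trans ?_
    rcases lt_or_gt_of_ne hne with h1 | h1
    · have := hgap n hn m hm h1
      rw [abs_sub_comm, le_abs]; left; linarith
    · have := hgap m hm n hn h1
      rw [le_abs]; left; linarith)
  rwa [Finset.card_image_of_injOn hinj] at hk

/-- **The circle problem for all centres at once.** Let `P a b R` be the number of integer points in the
closed disc of centre `(a, b)` and radius `R`, minus `π R²`. For every `ε > 0` there is a `C` such that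
for all `X ≥ 1`, `0 ≤ H ≤ X` and `V > 0`:
* the set of the radii `R ∈ [X, X + H]` for which `|P a b R| > V √R` for at least one real centre
  `(a, b)` has measure at most `C X^ε (H + √X) V⁻⁴`;
* the number of the integers `n ∈ [X, X + H]` such that `|P a b R| > V √R` for at least one radius
  `R ∈ [n, n + 1]` and at least one centre is at most `C X^ε (H + √X) V⁻⁴ (1 + √X / V)`. -/
theorem result (P : ℝ → ℝ → ℝ → ℝ)
    (hP : ∀ a b R : ℝ, P a b R =
      (Nat.card {p : ℤ × ℤ // ((p.1 : ℝ) - a) ^ 2 + ((p.2 : ℝ) - b) ^ 2 ≤ R ^ 2} : ℝ) - Real.pi * R ^ 2)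
    (ε : ℝ) (hε : 0 < ε) :
    ∃ C : ℝ, ∀ X H V : ℝ, 1 ≤ X → 0 ≤ H → H ≤ X → 0 < V →
      volume {R : ℝ | X ≤ R ∧ R ≤ X + H ∧ ∃ a b : ℝ, V * √R < |P a b R|} ≤
        ENNReal.ofReal (C * X ^ ε * (H + √X) / V ^ 4) ∧
      (Nat.card {n : ℕ // X ≤ n ∧ (n : ℝ) ≤ X + H ∧
        ∃ R : ℝ, n ≤ R ∧ R ≤ n + 1 ∧ ∃ a b : ℝ, V * √R < |P a b R|} : ℝ) ≤
          C * X ^ ε * (H + √X) / V ^ 4 * (1 + √X / V) := by
  have hPa : ∀ a b R : ℝ, P a b R = Pa (a, b) R := by
    intro a b R
    rw [hP]; rfl
  have hPe : ∀ R V : ℝ, (∃ a b : ℝ, V * √R < |P a b R|) ↔ ∃ a : ℝ × ℝ, V * √R < |Pa a R| := by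
    intro R V
    constructor
    · rintro ⟨a, b, h⟩
      exact ⟨(a, b), by rwa [← hPa]⟩
    · rintro ⟨a, h⟩
      exact ⟨a.1, a.2, by rwa [hPa]⟩
  simp only [hPe]
  obtain ⟨C0, hC0, h0⟩ := Pa_small
  obtain ⟨C1, hC1, h1⟩ := big_set hε
  obtain ⟨C2, hC2, h2⟩ := spaced hε
  refine ⟨C1 + C0 ^ 4 + 4 * C2, ?_⟩
  intro X H V hX hH hHX hV
  have hX0 : 0 < X := by linarith
  have hsX1 : 1 ≤ √X := Real.one_le_sqrt.mpr hX
  have hXe : 1 ≤ X ^ ε := Real.one_le_rpow hX hε.le
  have hXe0 : 0 < X ^ ε := by linarith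
  constructor
  · rcases le_or_gt 4 X with hX4 | hX4
    · refine (h1 X H V hX4 hH (by linarith) hV).trans (ENNReal.ofReal_le_ofReal ?_)
      rw [show (C1 + C0 ^ 4 + 4 * C2) * X ^ ε * (H + √X) / V ^ 4 =
        (C1 + C0 ^ 4 + 4 * C2) * (X ^ ε * (H + √X) / V ^ 4) by ring]
      gcongr
      nlinarith [pow_pos hC0 4]
    · rcases lt_or_ge C0 V with hVC | hVC
      · have : {R : ℝ | X ≤ R ∧ R ≤ X + H ∧ ∃ a : ℝ × ℝ, V * √R < |Pa a R|} = ∅ := by
          rw [Set.eq_empty_iff_forall_notMem]
          rintro r ⟨k1, k2, a, ha⟩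
          have k3 := h0 a r (by linarith) (by linarith)
          have k4 : 1 ≤ √r := Real.one_le_sqrt.mpr (by linarith)
          nlinarith
        rw [this, measure_empty]
        exact zero_le
      · calc volume {R : ℝ | X ≤ R ∧ R ≤ X + H ∧ ∃ a : ℝ × ℝ, V * √R < |Pa a R|}
            ≤ volume (Icc X (X + H)) := measure_mono (fun r hr => ⟨hr.1, hr.2.1⟩)
          _ = ENNReal.ofReal H := by rw [Real.volume_Icc]; congr 1; ring
          _ ≤ _ := by
              apply ENNReal.ofReal_le_ofReal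
              rw [le_div_iff₀ (by positivity)]
              have q1 : V ^ 4 ≤ C0 ^ 4 := by gcongr
              calc H * V ^ 4 ≤ (H + √X) * C0 ^ 4 := by
                    apply mul_le_mul (by linarith) q1 (by positivity) (by linarith)
                _ = C0 ^ 4 * 1 * (H + √X) := by ring
                _ ≤ (C1 + C0 ^ 4 + 4 * C2) * X ^ ε * (H + √X) := by
                    gcongr
                    linarith
  · classical
    set Q : ℕ → Prop := fun n => X ≤ n ∧ (n : ℝ) ≤ X + H ∧
        ∃ R : ℝ, n ≤ R ∧ R ≤ n + 1 ∧ ∃ a : ℝ × ℝ, V * √R < |Pa a R| with hQ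
    set F : Finset ℕ := (Finset.range (⌊X + H⌋₊ + 1)).filter Q with hF
    have hmem : ∀ n, n ∈ F ↔ Q n := by
      intro n
      rw [hF, Finset.mem_filter, Finset.mem_range]
      constructor
      · exact fun h => h.2
      · intro h
        refine ⟨?_, h⟩
        have : n ≤ ⌊X + H⌋₊ := Nat.le_floor h.2.1
        omega
    have hcard : Nat.card {n : ℕ // Q n} = F.card := by
      rw [← Nat.card_eq_finsetCard F]
      exact Nat.card_congr (Equiv.subtypeEquivRight (fun n => (hmem n).symm))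
    have hcard' : (Nat.card {n : ℕ // X ≤ n ∧ (n : ℝ) ≤ X + H ∧
        ∃ R : ℝ, n ≤ R ∧ R ≤ n + 1 ∧ ∃ a : ℝ × ℝ, V * √R < |Pa a R|} : ℝ) = F.card := by
      exact congrArg (Nat.cast : ℕ → ℝ) hcard
    rw [hcard']
    have hsp := h2 X (H + 1) V hX (by linarith) (by linarith) hV
    have hE := parity_class hsp (F.filter (fun n => Even n))
      (fun n hn => (hmem n).mp (Finset.mem_filter.mp hn).1)
      (by
        intro n hn m hm hnm
        have k1 := (Finset.mem_filter.mp hn).2
        have k2 := (Finset.mem_filter.mp hm).2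
        rw [Nat.even_iff] at k1 k2
        omega)
    have hO := parity_class hsp (F.filter (fun n => ¬ Even n))
      (fun n hn => (hmem n).mp (Finset.mem_filter.mp hn).1)
      (by
        intro n hn m hm hnm
        have k1 := (Finset.mem_filter.mp hn).2
        have k2 := (Finset.mem_filter.mp hm).2
        rw [Nat.even_iff] at k1 k2
        omega)
    have hsum : (F.card : ℝ) = ((F.filter (fun n => Even n)).card : ℝ) + ((F.filter (fun n => ¬ Even n)).card : ℝ) := by
      exact_mod_cast (Finset.card_filter_add_card_filter_not (s := F) (fun n => Even n)).symm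
    rw [hsum]
    have q1 : H + 1 + √X ≤ 2 * (H + √X) := by linarith
    calc ((F.filter (fun n => Even n)).card : ℝ) + ((F.filter (fun n => ¬ Even n)).card : ℝ)
        ≤ C2 * (X ^ ε * (H + 1 + √X) / V ^ 4 * (1 + √X / V)) + C2 * (X ^ ε * (H + 1 + √X) / V ^ 4 * (1 + √X / V)) :=
          add_le_add hE hO
      _ = 2 * C2 * (X ^ ε * (H + 1 + √X) / V ^ 4 * (1 + √X / V)) := by ring
      _ ≤ 2 * C2 * (X ^ ε * (2 * (H + √X)) / V ^ 4 * (1 + √X / V)) := by gcongr
      _ = 4 * C2 * (X ^ ε * (H + √X) / V ^ 4 * (1 + √X / V)) := by ring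
      _ ≤ (C1 + C0 ^ 4 + 4 * C2) * (X ^ ε * (H + √X) / V ^ 4 * (1 + √X / V)) := by
          gcongr
          nlinarith [pow_pos hC0 4]
      _ = _ := by ring

end Pool.Agent.H593.Old.AllCentresAlmostAllRadii
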